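import Pool.Agent.R69.DegMono3

/-!
# `M_k(3) / 2 ^ k → 1`
-/

set_option autoImplicit false

namespace Pool.Agent.Results.MP_7de56e_co.LimitOne

open Pool.Agent.R69.DegMono

/-- The graph formed by the edges of colour `j`, for a colouring `c` of the edges of `K_n`
(the values of `c` on the diagonal of `Sym2 (Fin n)` play no role). -/
def colourClass {n k : ℕ} (c : Sym2 (Fin n) → Fin k) (j : Fin k) : SimpleGraph (Fin n) where
  Adj u v := u ≠ v ∧ c s(u, v) = j
  symm := ⟨fun u v h => ⟨h.1.symm, by rw [Sym2.eq_swap]; exact h.2⟩⟩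
  loopless := ⟨fun _ h => h.1 rfl⟩

/-- The number of neighbours of `v` in `G`. -/
noncomputable def deg {V : Type} (G : SimpleGraph V) (v : V) : ℕ := (G.neighborSet v).ncard

/-- `G` contains a degree-monotone path of order `m`: distinct vertices `p 0, …, p (m - 1)`,
consecutive ones adjacent, whose degrees in `G` form a nondecreasing sequence. -/
def HasDegreeMonotonePath {V : Type} (G : SimpleGraph V) (m : ℕ) : Prop :=
  ∃ p : Fin m → V, Function.Injective p ∧
    (∀ i j : Fin m, (i : ℕ) + 1 = (j : ℕ) → G.Adj (p i) (p j)) ∧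
    (∀ i j : Fin m, i ≤ j → deg G (p i) ≤ deg G (p j))

/-- Every colouring of the edges of `K_n` with `k` colours has a colour class with a
degree-monotone path of order `m`. -/
def Forced (k m n : ℕ) : Prop :=
  ∀ c : Sym2 (Fin n) → Fin k, ∃ j : Fin k, HasDegreeMonotonePath (colourClass c j) m

/-- `M_k(m)`: the least `N` such that `Forced k m n` for every `n ≥ N`. -/
noncomputable def M (k m : ℕ) : ℕ := sInf {N : ℕ | ∀ n ≥ N, Forced k m n}

theorem not_forced {k n : ℕ} (h : GoodN k n) : ¬ Forced k 3 n := by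
  obtain ⟨c, hc, τ, h1, h2⟩ := h
  intro hF
  obtain ⟨j, p, hp, hadj, hdeg⟩ := hF (Sym2.lift ⟨c, hc⟩)
  have hA : ∀ u v, (colourClass (Sym2.lift ⟨c, hc⟩) j).Adj u v ↔ u ≠ v ∧ c u v = j := by
    intro u v
    simp [colourClass]
  have hd : ∀ u, deg (colourClass (Sym2.lift ⟨c, hc⟩) j) u = cdeg Finset.univ c j u := by
    intro u
    unfold deg cdeg
    rw [← Set.ncard_coe_finset]
    congr 1
    ext v
    simp only [SimpleGraph.mem_neighborSet, hA, Finset.coe_filter, Finset.mem_univ, true_and,
      Set.mem_setOf_eq]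
    tauto
  have h01 := (hA _ _).1 (hadj 0 1 rfl)
  have h12 := (hA _ _).1 (hadj 1 2 rfl)
  have d01 := hdeg 0 1 (by decide)
  have d12 := hdeg 1 2 (by decide)
  rw [hd, hd] at d01 d12
  have t01 := h1 _ (Finset.mem_univ _) _ (Finset.mem_univ _) h01.1
  have t12 := h1 _ (Finset.mem_univ _) _ (Finset.mem_univ _) h12.1
  rw [h01.2] at t01
  rw [h12.2] at t12
  rcases Bool.eq_false_or_eq_true (τ j (p 1)) with hb | hb
  · have h3 : τ j (p 2) = false := by
      rw [hb] at t12
      simpa using Ne.symm t12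
    have := h2 j _ (Finset.mem_univ _) _ (Finset.mem_univ _) h12.1 h12.2 hb h3
    omega
  · have h3 : τ j (p 0) = true := by
      rw [hb] at t01
      simpa using t01
    have := h2 j _ (Finset.mem_univ _) _ (Finset.mem_univ _) h01.1 h01.2 h3 hb
    omega

/-- the key of a vertex: the degree, ties being broken by the number of the vertex -/
noncomputable def key {n k : ℕ} (c : Sym2 (Fin n) → Fin k) (j : Fin k) (v : Fin n) : ℕ :=
  deg (colourClass c j) v * n + v

theorem key_inj {n k : ℕ} (c : Sym2 (Fin n) → Fin k) (j : Fin k) {u v : Fin n}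
    (h : key c j u = key c j v) : u = v := by
  unfold key at h
  have h1 := congrArg (· % n) h
  simp only [Nat.mul_add_mod_self_right] at h1
  rw [Nat.mod_eq_of_lt u.2, Nat.mod_eq_of_lt v.2] at h1
  exact Fin.ext h1

theorem key_le {n k : ℕ} (c : Sym2 (Fin n) → Fin k) (j : Fin k) {u v : Fin n}
    (h : key c j u < key c j v) : deg (colourClass c j) u ≤ deg (colourClass c j) v := by
  unfold key at h
  by_contra hcon
  rw [not_le] at hcon
  have h1 : (deg (colourClass c j) v + 1) * n ≤ deg (colourClass c j) u * n :=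
    Nat.mul_le_mul_right _ hcon
  have := v.2
  nlinarith

theorem forced_of_lt {k n : ℕ} (h : 2 ^ k < n) : Forced k 3 n := by
  classical
  intro c
  by_contra hcon
  push Not at hcon
  let φ : Fin n → (Fin k → Bool) := fun v j =>
    decide (∃ u, (colourClass c j).Adj v u ∧ key c j u < key c j v)
  have hlt : ∀ u v : Fin n, u ≠ v → key c (c s(u, v)) u < key c (c s(u, v)) v → φ u ≠ φ v := by
    intro u v huv hk hφ
    set j := c s(u, v) with hj
    have huv' : (colourClass c j).Adj u v := ⟨huv, rfl⟩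
    have h1 : φ v j = true := by
      simp only [φ, decide_eq_true_eq]
      exact ⟨u, huv'.symm, hk⟩
    rw [← hφ] at h1
    simp only [φ, decide_eq_true_eq] at h1
    obtain ⟨w, hw, hkw⟩ := h1
    apply hcon j
    have hwv : w ≠ v := by
      rintro rfl
      omega
    refine ⟨![w, u, v], ?_, ?_, ?_⟩
    · intro a b hab
      fin_cases a <;> fin_cases b <;> simp at hab ⊢
      · exact hw.ne hab.symm
      · exact hwv hab
      · exact hw.ne hab
      · exact huv hab
      · exact hwv hab.symm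
      · exact huv hab.symm
    · intro a b hab
      fin_cases a <;> fin_cases b <;> simp at hab ⊢
      · exact hw.symm
      · exact huv'
    · have d1 := key_le c j hkw
      have d2 := key_le c j hk
      intro a b hab
      fin_cases a <;> fin_cases b <;> simp at hab ⊢
      · exact d1
      · exact d1.trans d2
      · exact d2
  have hinj : Function.Injective φ := by
    intro u v huv
    by_contra hne
    rcases lt_trichotomy (key c (c s(u, v)) u) (key c (c s(u, v)) v) with h1 | h1 | h1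
    · exact hlt u v hne h1 huv
    · exact hne (key_inj c _ h1)
    · refine hlt v u (Ne.symm hne) ?_ huv.symm
      rw [Sym2.eq_swap]
      exact h1
  have h1 := Fintype.card_le_of_injective φ hinj
  rw [Fintype.card_fin, Fintype.card_fun, Fintype.card_bool, Fintype.card_fin] at h1
  omega

theorem isLeast_M (k : ℕ) : IsLeast {N : ℕ | ∀ n ≥ N, Forced k 3 n} (M k 3) := by
  constructor
  · exact Nat.sInf_mem ⟨2 ^ k + 1, fun n hn => forced_of_lt hn⟩
  · intro N hN
    exact Nat.sInf_le hN

theorem M_le (k : ℕ) : M k 3 ≤ 2 ^ k + 1 :=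
  (isLeast_M k).2 fun _ hn => forced_of_lt hn

theorem lt_M {k n : ℕ} (h : GoodN k n) : n < M k 3 := by
  by_contra hcon
  exact not_forced h ((isLeast_M k).1 n (not_lt.1 hcon))

/-- **Main theorem.** The limit of `M_k(3) / 2 ^ k` exists and equals `1`. (The first part says that
the least `N` in the definition of `M_k(3)` exists.) -/
theorem result :
    (∀ k : ℕ, IsLeast {N : ℕ | ∀ n ≥ N, Forced k 3 n} (M k 3)) ∧
    Filter.Tendsto (fun k : ℕ => (M k 3 : ℝ) / 2 ^ k) Filter.atTop (nhds 1) := by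
  refine ⟨isLeast_M, ?_⟩
  rw [Metric.tendsto_atTop]
  intro ε hε
  obtain ⟨K, a, ha, hgood⟩ := exists_goodN (ε / 2) (by positivity)
  obtain ⟨r, hr⟩ : ∃ r : ℕ, 1 / ε < r := exists_nat_gt _
  refine ⟨max K r, fun k hk => ?_⟩
  have hkK : K ≤ k := (le_max_left _ _).trans hk
  have hkr : r ≤ k := (le_max_right _ _).trans hk
  have h1 := lt_M (hgood k hkK)
  have h2 := M_le k
  have h2k : (0 : ℝ) < 2 ^ k := by positivity
  have h3 : (1 - ε / 2) * 2 ^ k ≤ (M k 3 : ℝ) := by
    have h4 : ((2 ^ (k - K) * a : ℕ) : ℝ) ≤ (M k 3 : ℝ) := by exact_mod_cast h1.le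
    refine le_trans ?_ h4
    push_cast
    have h5 : (2 : ℝ) ^ k = 2 ^ (k - K) * 2 ^ K := by rw [← pow_add]; congr 1; omega
    rw [h5]
    calc (1 - ε / 2) * (2 ^ (k - K) * 2 ^ K) = 2 ^ (k - K) * ((1 - ε / 2) * 2 ^ K) := by ring
      _ ≤ 2 ^ (k - K) * (a : ℝ) := mul_le_mul_of_nonneg_left ha (by positivity)
  have h6 : (M k 3 : ℝ) ≤ 2 ^ k + 1 := by exact_mod_cast h2
  have h7 : (1 : ℝ) / 2 ^ k < ε := by
    rw [div_lt_iff₀ h2k]
    rw [div_lt_iff₀ hε] at hr
    have h8 : (r : ℝ) ≤ 2 ^ k := by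
      have : r ≤ 2 ^ k := hkr.trans Nat.lt_two_pow_self.le
      exact_mod_cast this
    nlinarith
  rw [Real.dist_eq, abs_lt]
  constructor
  · have h9 : 1 - ε / 2 ≤ (M k 3 : ℝ) / 2 ^ k := by
      rw [le_div_iff₀ h2k]
      exact h3
    linarith
  · have h9 : (M k 3 : ℝ) / 2 ^ k ≤ 1 + 1 / 2 ^ k := by
      rw [div_le_iff₀ h2k, add_mul, one_mul, div_mul_cancel₀ _ h2k.ne']
      exact h6
    linarith

end Pool.Agent.Results.MP_7de56e_co.LimitOne
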